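import Pool.Agent.H985.SN.Stm

/-!
# Task CHR (helper370): the number of polynomial phases on a short interval
-/

set_option autoImplicit false

namespace Pool.Agent.H985.SN

open Polynomial Finset
open scoped Classical
open Pool.Agent.H985.Cor (Bx Tri)

namespace ChrX

variable {K : Type} [Field K] [Fintype K]

theorem finite_G (n : ℕ) : Finite (degreeLT K n) :=
  Finite.of_equiv _ (degreeLTEquiv K n).toEquiv.symm

theorem card_G (n : ℕ) : Nat.card (degreeLT K n) = Fintype.card K ^ n := by
  rw [Nat.card_congr (degreeLTEquiv K n).toEquiv, Nat.card_eq_fintype_card, Fintype.card_fun,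
    Fintype.card_fin]

omit [Fintype K] in
theorem pow_mem {d m : ℕ} {u : K[X]} (hu : u.degree < (m : WithBot ℕ)) (i : Fin d) :
    u ^ (i.val + 1) ∈ degreeLT K (d * m) := by
  by_cases h0 : u = 0
  · rw [h0, zero_pow (by omega)]
    exact Submodule.zero_mem _
  · rw [mem_degreeLT]
    have h1 : u.natDegree < m := (natDegree_lt_iff_degree_lt h0).2 hu
    rw [← natDegree_lt_iff_degree_lt (pow_ne_zero _ h0), natDegree_pow]
    have h2 : i.val + 1 ≤ d := i.isLt
    calc (i.val + 1) * u.natDegree ≤ d * u.natDegree := Nat.mul_le_mul_right _ h2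
      _ < d * m := Nat.mul_lt_mul_of_pos_left h1 (by omega)

/-- the phases -/
noncomputable def w (d n : ℕ) (j : Fin d → AddChar (degreeLT K n) ℂ) (u : K[X]) : ℂ :=
  if h : ∀ i : Fin d, u ^ (i.val + 1) ∈ degreeLT K n then ∏ i : Fin d, j i ⟨_, h i⟩ else 0

theorem norm_w (d n : ℕ) (j : Fin d → AddChar (degreeLT K n) ℂ) (u : K[X]) :
    ‖w d n j u‖ ≤ 1 := by
  have := finite_G (K := K) n
  unfold w
  split_ifs with h
  · rw [norm_prod]
    refine le_of_eq (Finset.prod_eq_one fun i _ => ?_)
    exact AddChar.norm_apply _ _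
  · simp

end ChrX

open ChrX in
theorem chr : S_chr := by
  intro K _ _ d m
  have := finite_G (K := K) (d * m)
  have : Fintype (degreeLT K (d * m)) := Fintype.ofFinite _
  refine ⟨Fin d → AddChar (degreeLT K (d * m)) ℂ, inferInstance, w d (d * m), ?_,
    norm_w d (d * m), ?_⟩
  · rw [Fintype.card_fun, Fintype.card_fin, AddChar.card_eq, ← Nat.card_eq_fintype_card, card_G,
      ← pow_mul, ← pow_mul]
    apply le_of_eq
    congr 1
    ring
  · intro χ
    refine ⟨fun i => (χ i).compAddMonoidHom (degreeLT K (d * m)).subtype.toAddMonoidHom,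
      fun u hu => ?_⟩
    have hu' := Pool.Agent.H985.Cor.mem_Bx.1 hu
    unfold w
    rw [dif_pos fun i => pow_mem hu' i]
    rfl

end Pool.Agent.H985.SN
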