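import Pool.Agent.H985.SN.Stm

set_option autoImplicit false

/-!
# Tuples in which every value occurs an even number of times (task DIAG)
-/

namespace Pool.Agent.H985.SN.Diag

open Finset
open scoped Classical

lemma card_image_le_half {α : Type} {k : ℕ} (t : Fin (2 * k) → α) (h : oddV t = ∅) :
    (univ.image t).card ≤ k := by
  have h1 : (univ : Finset (Fin (2 * k))).card =
      ∑ x ∈ univ.image t, (univ.filter fun i => t i = x).card :=
    card_eq_sum_card_fiberwise fun i _ => mem_image_of_mem t (mem_univ i)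
  have h2 : ∀ x ∈ univ.image t, 2 ≤ (univ.filter fun i => t i = x).card := by
    intro x hx
    have h3 : ¬ Odd (univ.filter fun i => t i = x).card := by
      intro ho
      have h4 : x ∈ oddV t := mem_filter.2 ⟨hx, ho⟩
      rw [h] at h4
      exact notMem_empty x h4
    obtain ⟨i, -, hi⟩ := mem_image.1 hx
    have h5 : 0 < (univ.filter fun i => t i = x).card :=
      card_pos.2 ⟨i, mem_filter.2 ⟨mem_univ i, hi⟩⟩
    rw [Nat.not_odd_iff_even] at h3
    obtain ⟨m, hm⟩ := h3
    omega
  have h6 := sum_le_sum h2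
  rw [sum_const, smul_eq_mul, ← h1, card_univ, Fintype.card_fin] at h6
  omega

lemma exists_factor {α : Type} (V : Finset α) {k : ℕ} {v₀ : α} (hv₀ : v₀ ∈ V) (t : Fin (2 * k) → α)
    (ht : ∀ i, t i ∈ V) (h : (univ.image t).card ≤ k) :
    ∃ (s : Fin k → α) (e : Fin (2 * k) → Fin k), (∀ j, s j ∈ V) ∧ (fun i => s (e i)) = t := by
  have hmem : ∀ i, t i ∈ univ.image t := fun i => mem_image_of_mem t (mem_univ i)
  let f := (univ.image t).equivFin
  refine ⟨fun j => if hj : (j : ℕ) < (univ.image t).card then ((f.symm ⟨j, hj⟩ : univ.image t) : α)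
    else v₀, fun i => ⟨(f ⟨t i, hmem i⟩ : ℕ), lt_of_lt_of_le (f ⟨t i, hmem i⟩).2 h⟩, ?_, ?_⟩
  · intro j
    by_cases hj : (j : ℕ) < (univ.image t).card
    · simp only [hj, dif_pos]
      obtain ⟨i, -, hi⟩ := mem_image.1 (f.symm ⟨j, hj⟩).2
      rw [← hi]
      exact ht i
    · simp only [hj, dif_neg, not_false_eq_true]
      exact hv₀
  · funext i
    have hj : (f ⟨t i, hmem i⟩ : ℕ) < (univ.image t).card := (f ⟨t i, hmem i⟩).2
    simp only [hj, dif_pos]
    have h2 : (⟨(f ⟨t i, hmem i⟩ : ℕ), hj⟩ : Fin (univ.image t).card) = f ⟨t i, hmem i⟩ := rfl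
    rw [h2, Equiv.symm_apply_apply]

theorem diag_aux : S_diag := by
  intro α V k hV
  obtain ⟨v₀, hv₀⟩ := hV
  have hsub : ((Fintype.piFinset fun _ : Fin (2 * k) => V).filter fun t => oddV t = ∅) ⊆
      ((Fintype.piFinset fun _ : Fin k => V) ×ˢ (univ : Finset (Fin (2 * k) → Fin k))).image
        (fun p => fun i => p.1 (p.2 i)) := by
    intro t ht
    obtain ⟨ht1, ht2⟩ := mem_filter.1 ht
    rw [Fintype.mem_piFinset] at ht1
    obtain ⟨s, e, hs, hse⟩ := exists_factor V hv₀ t ht1 (card_image_le_half t ht2)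
    rw [mem_image]
    exact ⟨(s, e), mem_product.2 ⟨Fintype.mem_piFinset.2 hs, mem_univ _⟩, hse⟩
  refine (card_le_card hsub).trans (card_image_le.trans ?_)
  rw [card_product, Fintype.card_piFinset_const, card_univ, Fintype.card_fun, Fintype.card_fin,
    Fintype.card_fin, mul_comm]

end Pool.Agent.H985.SN.Diag

namespace Pool.Agent.H985.SN

/-- **Task DIAG.** -/
theorem diag : S_diag := Diag.diag_aux

end Pool.Agent.H985.SN
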