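import Mathlib
import Pool.Agent.H985.Gc.Stm

/-!
# Sup norms of short exponential sums with the Möbius function over `F_q[X]`, `q` even (helper985):
statements of the parts
-/

set_option autoImplicit false

namespace Pool.Agent.H985.SN

open Polynomial Finset
open scoped Classical
open Pool.Agent.H985.Cor (Bx Tri)

/-- The values which `t` takes an odd number of times. -/
noncomputable def oddV {α : Type} {r : ℕ} (t : Fin r → α) : Finset α :=
  (univ.image t).filter fun x => Odd (univ.filter fun i => t i = x).card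

/-- The values which `t` takes an even, positive number of times. -/
noncomputable def evenV {α : Type} {r : ℕ} (t : Fin r → α) : Finset α :=
  (univ.image t).filter fun x => ¬ Odd (univ.filter fun i => t i = x).card

/-- **Task DIAG.** -/
def S_diag : Prop :=
  ∀ (α : Type) (V : Finset α) (k : ℕ), V.Nonempty →
    ((Fintype.piFinset fun _ : Fin (2 * k) => V).filter fun t => oddV t = ∅).card ≤
      k ^ (2 * k) * V.card ^ k

/-- **Task REG.** -/
def S_reg : Prop :=
  ∀ (α : Type) (g : α → ℝ) (r : ℕ) (t : Fin r → α), (∀ x, g x = 0 ∨ g x = 1 ∨ g x = -1) →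
    ∏ i, g (t i) = (∏ x ∈ oddV t, g x) * ∏ x ∈ evenV t, g x ^ 2

/-- **Task CHR.** -/
def S_chr : Prop :=
  ∀ (K : Type) [Field K] [Fintype K] (d m : ℕ), ∃ (ι : Type) (_ : Fintype ι) (w : ι → K[X] → ℂ),
    Fintype.card ι ≤ (Fintype.card K ^ m) ^ (d ^ 2) ∧ (∀ j u, ‖w j u‖ ≤ 1) ∧
    ∀ χ : Fin d → AddChar K[X] ℂ, ∃ j, ∀ u ∈ Bx K m, ∏ i : Fin d, χ i (u ^ (i.val + 1)) = w j u

/-- **Task LOW.** -/
def S_low : Prop :=
  ∀ (K : Type) [Field K] [Fintype K] (b : K[X] → ℝ) (m : ℕ), ∃ χ : AddChar K[X] ℂ,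
    ∑ u ∈ Bx K m, b u ^ 2 ≤ ‖∑ u ∈ Bx K m, (b u : ℂ) * χ u‖ ^ 2

end Pool.Agent.H985.SN
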