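import Mathlib
import Pool.Agent.H985.SN.Stm

/-!
# Moments of short sums with weights (helper985)
-/

set_option autoImplicit false

namespace Pool.Agent.H985.SN

open Polynomial Finset
open scoped Classical
open Pool.Agent.H694.Typ (Mn mem_Mn card_Mn)
open Pool.Agent.H985.Cor (Bx Tri mem_Bx card_Bx)
open Pool.Agent.H985.Gc (ChowU)

/-- splitting the sum over the tuples -/
theorem split (hD : S_diag) {α : Type} (V : Finset α) (k : ℕ) (hV : V.Nonempty)
    (F : (Fin (2 * k) → α) → ℝ) (C B : ℝ) (hC : 0 ≤ C) (hB : 0 ≤ B) (h1 : ∀ t, F t ≤ C)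
    (h2 : ∀ t : Fin (2 * k) → α, (∀ i, t i ∈ V) → oddV t ≠ ∅ → F t ≤ B) :
    ∑ t ∈ Fintype.piFinset (fun _ : Fin (2 * k) => V), F t ≤
      (k : ℝ) ^ (2 * k) * (V.card : ℝ) ^ k * C + (V.card : ℝ) ^ (2 * k) * B := by
  have hcd : ((((Fintype.piFinset fun _ : Fin (2 * k) => V).filter fun t => oddV t = ∅).card : ℕ)
      : ℝ) ≤ (k : ℝ) ^ (2 * k) * (V.card : ℝ) ^ k := by
    have h3 := hD α V k hV
    have h4 := (Nat.cast_le (α := ℝ)).2 h3
    refine h4.trans (le_of_eq ?_)
    push_cast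
    rfl
  rw [← sum_filter_add_sum_filter_not (Fintype.piFinset fun _ : Fin (2 * k) => V)
    (fun t => oddV t = ∅)]
  refine add_le_add ?_ ?_
  · calc _ ≤ ∑ t ∈ (Fintype.piFinset fun _ : Fin (2 * k) => V).filter (fun t => oddV t = ∅), C :=
          sum_le_sum fun t _ => h1 t
      _ ≤ _ := by
          rw [sum_const, nsmul_eq_mul]
          exact mul_le_mul_of_nonneg_right hcd hC
  · calc _ ≤ ∑ t ∈ (Fintype.piFinset fun _ : Fin (2 * k) => V).filter
            (fun t => ¬ oddV t = ∅), B := by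
          refine sum_le_sum fun t ht => ?_
          rw [mem_filter] at ht
          exact h2 t (Fintype.mem_piFinset.1 ht.1) ht.2
      _ ≤ _ := by
          rw [sum_const, nsmul_eq_mul]
          refine mul_le_mul_of_nonneg_right ?_ hB
          have h5 : ((Fintype.piFinset fun _ : Fin (2 * k) => V).filter
              (fun t => ¬ oddV t = ∅)).card ≤ V.card ^ (2 * k) := by
            refine (card_filter_le _ _).trans (le_of_eq ?_)
            rw [Fintype.card_piFinset_const]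
          exact_mod_cast h5

theorem mem_or {α : Type} {r : ℕ} (t : Fin r → α) (x : α) (hx : x ∈ oddV t ∨ x ∈ evenV t) :
    ∃ i, t i = x := by
  unfold oddV evenV at hx
  rcases hx with h | h
  · obtain ⟨i, _, hi⟩ := mem_image.1 (mem_filter.1 h).1
    exact ⟨i, hi⟩
  · obtain ⟨i, _, hi⟩ := mem_image.1 (mem_filter.1 h).1
    exact ⟨i, hi⟩

theorem disj {α : Type} {r : ℕ} (t : Fin r → α) : Disjoint (oddV t) (evenV t) := by
  unfold oddV evenV
  exact Finset.disjoint_filter.2 fun x _ h1 h2 => h2 h1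

theorem card_add_le {α : Type} {r : ℕ} (t : Fin r → α) :
    (oddV t).card + (evenV t).card ≤ r := by
  rw [← card_union_of_disjoint (disj t)]
  have h : oddV t ∪ evenV t ⊆ univ.image t := by
    intro x hx
    obtain ⟨i, hi⟩ := mem_or t x (mem_union.1 hx)
    exact mem_image.2 ⟨i, mem_univ _, hi⟩
  exact (card_le_card h).trans (card_image_le.trans (by simp))

variable {K : Type} [Field K] [Fintype K]

theorem tri_abs {a : K[X] → ℝ} (ha : Tri a) (f : K[X]) : |a f| ≤ 1 := by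
  rcases ha f with h | h | h <;> rw [h] <;> simp

theorem mom (hD : S_diag) (hR : S_reg) (a : K[X] → ℝ) (ha : Tri a) (hc : ChowU a) (k : ℕ)
    (hk : 1 ≤ k) :
    ∃ c : ℝ, 0 < c ∧ ∃ n₀ : ℕ, ∀ n m : ℕ, n₀ ≤ n → (m : ℝ) ≤ c * n →
      ∀ w : K[X] → ℝ, (∀ u, |w u| ≤ 1) →
        ∑ f ∈ Mn K n, (∑ u ∈ Bx K m, a (f + u) * w u) ^ (2 * k) ≤
          ((k : ℝ) ^ (2 * k) + 1) * ((Fintype.card K : ℝ) ^ m) ^ k * (Fintype.card K : ℝ) ^ n := by
  obtain ⟨c, hc0, n₀, h⟩ := hc (2 * k)
  have hk0 : (0 : ℝ) < k := by exact_mod_cast hk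
  refine ⟨min (c / k) 1, lt_min (div_pos hc0 hk0) one_pos, max n₀ 1, fun n m hn hm w hw => ?_⟩
  have hn0 : n₀ ≤ n := (le_max_left _ _).trans hn
  have hn1 : 1 ≤ n := (le_max_right _ _).trans hn
  have hnR : (0 : ℝ) ≤ n := Nat.cast_nonneg n
  have hm1 : (k : ℝ) * m ≤ c * n := by
    have h1 : (m : ℝ) ≤ c / k * n := hm.trans (mul_le_mul_of_nonneg_right (min_le_left _ _) hnR)
    calc (k : ℝ) * m ≤ k * (c / k * n) := mul_le_mul_of_nonneg_left h1 hk0.le
      _ = c * n := by field_simp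
  have hm2 : m ≤ n := by
    have h1 : (m : ℝ) ≤ 1 * n := hm.trans (mul_le_mul_of_nonneg_right (min_le_right _ _) hnR)
    rw [one_mul] at h1
    exact_mod_cast h1
  set q : ℝ := (Fintype.card K : ℝ) with hq
  have hq1 : (1 : ℝ) < q := by
    rw [hq]
    exact_mod_cast Fintype.one_lt_card
  have hq0 : (0 : ℝ) < q := by linarith
  have hdeg : ∀ u ∈ Bx K m, u.natDegree < n := by
    intro u hu
    rw [mem_Bx] at hu
    by_cases h0 : u = 0
    · subst h0
      simp
      omega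
    · rw [degree_eq_natDegree h0] at hu
      have : u.natDegree < m := by exact_mod_cast hu
      omega
  set B : ℝ := q ^ ((n : ℝ) - c * n) with hB
  have hB0 : 0 < B := Real.rpow_pos_of_pos hq0 _
  set T := Fintype.piFinset fun _ : Fin (2 * k) => Bx K m with hT
  have hMn : ((Mn K n).card : ℝ) = q ^ n := by
    rw [card_Mn]
    push_cast
    rfl
  -- expansion
  have hexp : ∑ f ∈ Mn K n, (∑ u ∈ Bx K m, a (f + u) * w u) ^ (2 * k) =
      ∑ t ∈ T, (∏ i, w (t i)) * ∑ f ∈ Mn K n, ∏ i, a (f + t i) := by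
    have e1 : ∀ f : K[X], (∑ u ∈ Bx K m, a (f + u) * w u) ^ (2 * k) =
        ∑ t ∈ T, (∏ i, w (t i)) * ∏ i, a (f + t i) := by
      intro f
      rw [Finset.sum_pow']
      refine sum_congr rfl fun t _ => ?_
      rw [prod_mul_distrib, mul_comm]
    rw [sum_congr rfl fun f _ => e1 f, sum_comm]
    refine sum_congr rfl fun t _ => ?_
    rw [mul_sum]
  have habsw : ∀ t : Fin (2 * k) → K[X], |∏ i, w (t i)| ≤ 1 := by
    intro t
    rw [abs_prod]
    exact prod_le_one (fun i _ => abs_nonneg _) fun i _ => hw _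
  have hdiag : ∀ t : Fin (2 * k) → K[X], |∑ f ∈ Mn K n, ∏ i, a (f + t i)| ≤ q ^ n := by
    intro t
    calc |∑ f ∈ Mn K n, ∏ i, a (f + t i)| ≤ ∑ f ∈ Mn K n, |∏ i, a (f + t i)| :=
          abs_sum_le_sum_abs _ _
      _ ≤ ∑ f ∈ Mn K n, 1 := by
          refine sum_le_sum fun f _ => ?_
          rw [abs_prod]
          exact prod_le_one (fun i _ => abs_nonneg _) fun i _ => tri_abs ha _
      _ = q ^ n := by rw [sum_const, nsmul_eq_mul, hMn, mul_one]
  have hoff : ∀ t : Fin (2 * k) → K[X], (∀ i, t i ∈ Bx K m) → oddV t ≠ ∅ →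
      |∑ f ∈ Mn K n, ∏ i, a (f + t i)| ≤ B := by
    intro t ht hodd
    have h1 := h n hn0 (oddV t) (evenV t) (nonempty_iff_ne_empty.2 hodd) (disj t)
      (card_add_le t) (by
      intro u hu
      obtain ⟨i, rfl⟩ := mem_or t u (mem_union.1 hu)
      exact hdeg _ (ht i))
    have h2 : ∀ f : K[X], ∏ i, a (f + t i) =
        (∏ x ∈ oddV t, a (f + x)) * ∏ x ∈ evenV t, a (f + x) ^ 2 := fun f =>
      hR K[X] (fun x => a (f + x)) (2 * k) t fun x => ha (f + x)
    rw [sum_congr rfl fun f _ => h2 f]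
    exact h1
  have hne : (Bx K m).Nonempty := ⟨0, by rw [mem_Bx]; simp⟩
  have hcB : (((Bx K m).card : ℕ) : ℝ) = q ^ m := by
    rw [card_Bx]
    push_cast
    rfl
  have hsplit := split hD (Bx K m) k hne (fun t => |∑ f ∈ Mn K n, ∏ i, a (f + t i)|) (q ^ n) B
    (by positivity) hB0.le hdiag hoff
  rw [hcB] at hsplit
  rw [hexp]
  calc ∑ t ∈ T, (∏ i, w (t i)) * ∑ f ∈ Mn K n, ∏ i, a (f + t i)
      ≤ ∑ t ∈ T, |∑ f ∈ Mn K n, ∏ i, a (f + t i)| := by
        refine sum_le_sum fun t _ => (le_abs_self _).trans ?_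
        rw [abs_mul]
        exact (mul_le_mul_of_nonneg_right (habsw t) (abs_nonneg _)).trans (by rw [one_mul])
    _ ≤ (k : ℝ) ^ (2 * k) * (q ^ m) ^ k * q ^ n + (q ^ m) ^ (2 * k) * B := hsplit
    _ ≤ ((k : ℝ) ^ (2 * k) + 1) * (q ^ m) ^ k * q ^ n := by
        have h3 : (q ^ m) ^ k ≤ q ^ (c * n) := by
          rw [← pow_mul, ← Real.rpow_natCast]
          refine Real.rpow_le_rpow_of_exponent_le hq1.le ?_
          push_cast
          rw [mul_comm]
          exact hm1
        have h4 : (q ^ m) ^ (2 * k) * B ≤ (q ^ m) ^ k * q ^ n := by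
          have e5 : (q ^ m) ^ (2 * k) = (q ^ m) ^ k * (q ^ m) ^ k := by
            rw [two_mul, pow_add]
          have e6 : q ^ (c * n) * B = q ^ n := by
            rw [hB, ← Real.rpow_add hq0, ← Real.rpow_natCast]
            ring_nf
          rw [e5, mul_assoc]
          refine mul_le_mul_of_nonneg_left ?_ (by positivity)
          calc (q ^ m) ^ k * B ≤ q ^ (c * n) * B := mul_le_mul_of_nonneg_right h3 hB0.le
            _ = q ^ n := e6
        nlinarith [h4]

end Pool.Agent.H985.SN
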