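import Mathlib
import Pool.Agent.H985.SN.Stm

/-! Task REG (helper118): a product over a tuple, grouped by values. -/

set_option autoImplicit false

namespace Pool.Agent.H985.SN.RegX

open Finset
open scoped Classical

theorem odd_case {a : ℝ} (ha : a = 0 ∨ a = 1 ∨ a = -1) {n : ℕ} (hn : Odd n) : a ^ n = a := by
  rcases ha with h | h | h
  · rw [h, zero_pow]
    rintro rfl
    exact absurd hn (by decide)
  · rw [h, one_pow]
  · rw [h, hn.neg_one_pow]

theorem even_case {a : ℝ} (ha : a = 0 ∨ a = 1 ∨ a = -1) {n : ℕ} (hn : Even n) (h0 : n ≠ 0) :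
    a ^ n = a ^ 2 := by
  rcases ha with h | h | h
  · rw [h, zero_pow h0, zero_pow (by norm_num)]
  · rw [h, one_pow, one_pow]
  · rw [h, hn.neg_one_pow, even_two.neg_one_pow]

end Pool.Agent.H985.SN.RegX

namespace Pool.Agent.H985.SN

open Finset
open scoped Classical

theorem reg : S_reg := by
  intro α g r t hg
  have h1 : ∏ i, g (t i) = ∏ x ∈ univ.image t, g x ^ (univ.filter fun i => t i = x).card := by
    rw [← Finset.prod_fiberwise_of_maps_to (s := univ) (t := univ.image t) (g := t)
      (fun i _ => mem_image_of_mem t (mem_univ i)) (fun i => g (t i))]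
    refine Finset.prod_congr rfl fun x _ => ?_
    rw [Finset.prod_congr rfl (g := fun _ => g x) (fun i hi => by rw [(mem_filter.1 hi).2]),
      Finset.prod_const]
  have h2 := Finset.prod_filter_mul_prod_filter_not (univ.image t)
    (fun x => Odd (univ.filter fun i => t i = x).card)
    (fun x => g x ^ (univ.filter fun i => t i = x).card)
  rw [h1, ← h2]
  have h3 : ∏ x ∈ (univ.image t).filter (fun x => Odd (univ.filter fun i => t i = x).card),
      g x ^ (univ.filter fun i => t i = x).card = ∏ x ∈ oddV t, g x := by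
    unfold oddV
    exact Finset.prod_congr rfl fun x hx => RegX.odd_case (hg x) (mem_filter.1 hx).2
  have h4 : ∏ x ∈ (univ.image t).filter (fun x => ¬ Odd (univ.filter fun i => t i = x).card),
      g x ^ (univ.filter fun i => t i = x).card = ∏ x ∈ evenV t, g x ^ 2 := by
    unfold evenV
    refine Finset.prod_congr rfl fun x hx => ?_
    obtain ⟨ha, hb⟩ := mem_filter.1 hx
    refine RegX.even_case (hg x) (Nat.not_odd_iff_even.1 hb) ?_
    obtain ⟨i, -, hi⟩ := mem_image.1 ha
    exact (Finset.card_pos.2 ⟨i, mem_filter.2 ⟨mem_univ i, hi⟩⟩).ne'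
  rw [h3, h4]

end Pool.Agent.H985.SN
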