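import Mathlib
import Pool.Agent.H985.SN.Mom
import Pool.Agent.H985.SN.Reg
import Pool.Agent.H985.SN.Diag

/-!
# Many weights at once (helper985)
-/

set_option autoImplicit false

namespace Pool.Agent.H985.SN

open Polynomial Finset
open scoped Classical
open Pool.Agent.H694.Typ (Mn mem_Mn card_Mn)
open Pool.Agent.H985.Cor (Bx Tri mem_Bx card_Bx)
open Pool.Agent.H985.Gc (ChowU)

variable {K : Type} [Field K] [Fintype K]

theorem cmom (a : K[X] → ℝ) (ha : Tri a) (hc : ChowU a) (k : ℕ) (hk : 1 ≤ k) :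
    ∃ c : ℝ, 0 < c ∧ ∃ n₀ : ℕ, ∀ n m : ℕ, n₀ ≤ n → (m : ℝ) ≤ c * n →
      ∀ w : K[X] → ℂ, (∀ u, ‖w u‖ ≤ 1) →
        ∑ f ∈ Mn K n, ‖∑ u ∈ Bx K m, (a (f + u) : ℂ) * w u‖ ^ (2 * k) ≤
          (2 ^ k * ((k : ℝ) ^ (2 * k) + 1)) * ((Fintype.card K : ℝ) ^ m) ^ k *
            (Fintype.card K : ℝ) ^ n := by
  obtain ⟨c, hc0, n₀, h⟩ := mom diag reg a ha hc k hk
  refine ⟨c, hc0, n₀, fun n m hn hm w hw => ?_⟩
  have h1 := h n m hn hm (fun u => (w u).re) fun u => (Complex.abs_re_le_norm _).trans (hw u)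
  have h2 := h n m hn hm (fun u => (w u).im) fun u => (Complex.abs_im_le_norm _).trans (hw u)
  have h3 : ∀ f : K[X], ‖∑ u ∈ Bx K m, (a (f + u) : ℂ) * w u‖ ^ (2 * k) ≤
      2 ^ (k - 1) * ((∑ u ∈ Bx K m, a (f + u) * (w u).re) ^ (2 * k) +
        (∑ u ∈ Bx K m, a (f + u) * (w u).im) ^ (2 * k)) := by
    intro f
    have e1 : (∑ u ∈ Bx K m, (a (f + u) : ℂ) * w u).re = ∑ u ∈ Bx K m, a (f + u) * (w u).re := by
      rw [Complex.re_sum]
      refine sum_congr rfl fun u _ => ?_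
      simp
    have e2 : (∑ u ∈ Bx K m, (a (f + u) : ℂ) * w u).im = ∑ u ∈ Bx K m, a (f + u) * (w u).im := by
      rw [Complex.im_sum]
      refine sum_congr rfl fun u _ => ?_
      simp
    rw [pow_mul, Complex.sq_norm, Complex.normSq_apply, e1, e2, ← sq, ← sq, pow_mul, pow_mul]
    exact add_pow_le (sq_nonneg _) (sq_nonneg _) k
  calc ∑ f ∈ Mn K n, ‖∑ u ∈ Bx K m, (a (f + u) : ℂ) * w u‖ ^ (2 * k)
      ≤ ∑ f ∈ Mn K n, 2 ^ (k - 1) * ((∑ u ∈ Bx K m, a (f + u) * (w u).re) ^ (2 * k) +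
        (∑ u ∈ Bx K m, a (f + u) * (w u).im) ^ (2 * k)) := sum_le_sum fun f _ => h3 f
    _ = 2 ^ (k - 1) * (∑ f ∈ Mn K n, (∑ u ∈ Bx K m, a (f + u) * (w u).re) ^ (2 * k) +
        ∑ f ∈ Mn K n, (∑ u ∈ Bx K m, a (f + u) * (w u).im) ^ (2 * k)) := by
        rw [← mul_sum, sum_add_distrib]
    _ ≤ 2 ^ (k - 1) * (((k : ℝ) ^ (2 * k) + 1) * ((Fintype.card K : ℝ) ^ m) ^ k *
          (Fintype.card K : ℝ) ^ n + ((k : ℝ) ^ (2 * k) + 1) * ((Fintype.card K : ℝ) ^ m) ^ k *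
          (Fintype.card K : ℝ) ^ n) :=
        mul_le_mul_of_nonneg_left (add_le_add h1 h2) (by positivity)
    _ = (2 ^ k * ((k : ℝ) ^ (2 * k) + 1)) * ((Fintype.card K : ℝ) ^ m) ^ k *
            (Fintype.card K : ℝ) ^ n := by
        have e3 : (2 : ℝ) ^ k = 2 ^ (k - 1) * 2 := by
          rw [← pow_succ, Nat.sub_add_cancel hk]
        rw [e3]
        ring

theorem exc (a : K[X] → ℝ) (ha : Tri a) (hc : ChowU a) (A : ℕ) (ε : ℝ) (hε : 0 < ε) :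
    ∃ c : ℝ, 0 < c ∧ ∃ M : ℕ, ∀ n m : ℕ, M ≤ m → (m : ℝ) ≤ c * n →
      ∀ (ι : Type) [Fintype ι] (w : ι → K[X] → ℂ),
        Fintype.card ι ≤ (Fintype.card K ^ m) ^ A → (∀ j u, ‖w j u‖ ≤ 1) →
        (((Mn K n).filter fun f => ∃ j, ((Fintype.card K : ℝ) ^ m) ^ (1 / 2 + ε) <
          ‖∑ u ∈ Bx K m, (a (f + u) : ℂ) * w j u‖).card : ℝ) ≤
            (Fintype.card K : ℝ) ^ n / ((Fintype.card K : ℝ) ^ m) ^ A := by
  set k : ℕ := ⌈(2 * (A : ℝ) + 1) / (2 * ε)⌉₊ + 1 with hk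
  have hk1 : 1 ≤ k := by omega
  have hkε : 2 * (A : ℝ) + 1 ≤ 2 * k * ε := by
    have h1 : (2 * (A : ℝ) + 1) / (2 * ε) ≤ k := by
      rw [hk]
      push_cast
      exact (Nat.le_ceil _).trans (by linarith)
    rw [div_le_iff₀ (by positivity)] at h1
    linarith
  obtain ⟨c, hc0, n₀, h⟩ := cmom a ha hc k hk1
  set C : ℝ := 2 ^ k * ((k : ℝ) ^ (2 * k) + 1) with hC
  have hC0 : 0 < C := by positivity
  refine ⟨c, hc0, max ⌈c * n₀⌉₊ ⌈C⌉₊, fun n m hM hm ι _ w hι hw => ?_⟩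
  set q : ℝ := (Fintype.card K : ℝ) with hq
  have hq2 : (2 : ℝ) ≤ q := by
    rw [hq]
    exact_mod_cast (Fintype.one_lt_card : 1 < Fintype.card K)
  have hq0 : (0 : ℝ) < q := by linarith
  have hn0 : n₀ ≤ n := by
    have h1 : c * (n₀ : ℝ) ≤ c * n := by
      calc c * (n₀ : ℝ) ≤ (⌈c * n₀⌉₊ : ℝ) := Nat.le_ceil _
        _ ≤ (m : ℝ) := by exact_mod_cast (le_max_left _ _).trans hM
        _ ≤ c * n := hm
    have h2 := le_of_mul_le_mul_left h1 hc0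
    exact_mod_cast h2
  set H : ℝ := q ^ m with hH
  have hCH : C ≤ H := by
    calc C ≤ (⌈C⌉₊ : ℝ) := Nat.le_ceil _
      _ ≤ (m : ℝ) := by exact_mod_cast (le_max_right _ _).trans hM
      _ ≤ (2 : ℝ) ^ m := by exact_mod_cast (Nat.lt_two_pow_self (n := m)).le
      _ ≤ q ^ m := pow_le_pow_left₀ (by norm_num) hq2 m
  have hH1 : (1 : ℝ) ≤ H := by
    have : (1 : ℝ) ≤ C := by
      rw [hC]
      have h1 : (1 : ℝ) ≤ 2 ^ k := one_le_pow₀ (by norm_num)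
      have h2 : (1 : ℝ) ≤ (k : ℝ) ^ (2 * k) + 1 := by
        have : (0 : ℝ) ≤ (k : ℝ) ^ (2 * k) := by positivity
        linarith
      calc (1 : ℝ) = 1 * 1 := (one_mul 1).symm
        _ ≤ _ := mul_le_mul h1 h2 zero_le_one (by positivity)
    linarith
  have hH0 : 0 < H := by linarith
  set S := (Mn K n).filter fun f => ∃ j, H ^ (1 / 2 + ε) <
    ‖∑ u ∈ Bx K m, (a (f + u) : ℂ) * w j u‖ with hS
  have h1 : (S.card : ℝ) * (H ^ (1 / 2 + ε)) ^ (2 * k) ≤ H ^ A * (C * H ^ k * q ^ n) := by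
    calc (S.card : ℝ) * (H ^ (1 / 2 + ε)) ^ (2 * k)
        = ∑ f ∈ S, (H ^ (1 / 2 + ε)) ^ (2 * k) := by rw [sum_const, nsmul_eq_mul]
      _ ≤ ∑ f ∈ S, ∑ j, ‖∑ u ∈ Bx K m, (a (f + u) : ℂ) * w j u‖ ^ (2 * k) := by
          refine sum_le_sum fun f hf => ?_
          obtain ⟨j, hj⟩ := (mem_filter.1 hf).2
          refine (pow_le_pow_left₀ (by positivity) hj.le _).trans ?_
          exact single_le_sum (f := fun j => ‖∑ u ∈ Bx K m, (a (f + u) : ℂ) * w j u‖ ^ (2 * k))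
            (fun j _ => by positivity) (mem_univ j)
      _ ≤ ∑ f ∈ Mn K n, ∑ j, ‖∑ u ∈ Bx K m, (a (f + u) : ℂ) * w j u‖ ^ (2 * k) :=
          sum_le_sum_of_subset_of_nonneg (filter_subset _ _) fun f _ _ => by positivity
      _ = ∑ j, ∑ f ∈ Mn K n, ‖∑ u ∈ Bx K m, (a (f + u) : ℂ) * w j u‖ ^ (2 * k) := sum_comm
      _ ≤ ∑ j : ι, C * H ^ k * q ^ n := sum_le_sum fun j _ => h n m hn0 hm (w j) (hw j)
      _ = (Fintype.card ι : ℝ) * (C * H ^ k * q ^ n) := by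
          rw [sum_const, nsmul_eq_mul, card_univ]
      _ ≤ H ^ A * (C * H ^ k * q ^ n) := by
          refine mul_le_mul_of_nonneg_right ?_ (by positivity)
          have h2 : ((Fintype.card ι : ℕ) : ℝ) ≤ (((Fintype.card K ^ m) ^ A : ℕ) : ℝ) :=
            Nat.cast_le.2 hι
          refine h2.trans (le_of_eq ?_)
          rw [hH, hq]
          push_cast
          rfl
  have h2 : (H ^ (1 / 2 + ε)) ^ (2 * k) = H ^ k * H ^ (2 * k * ε) := by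
    rw [← Real.rpow_natCast, ← Real.rpow_mul hH0.le, ← Real.rpow_natCast H k, ← Real.rpow_add hH0]
    push_cast
    ring_nf
  have h3 : H ^ (2 * A + 1) ≤ H ^ (2 * k * ε) := by
    rw [← Real.rpow_natCast]
    refine Real.rpow_le_rpow_of_exponent_le hH1 ?_
    push_cast
    exact hkε
  rw [h2] at h1
  rw [le_div_iff₀ (by positivity)]
  have hHk : 0 < H ^ k := by positivity
  have h4 : (S.card : ℝ) * (H ^ k * H ^ (2 * A + 1)) ≤ H ^ A * (H * H ^ k * q ^ n) := by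
    calc (S.card : ℝ) * (H ^ k * H ^ (2 * A + 1)) ≤ (S.card : ℝ) * (H ^ k * H ^ (2 * k * ε)) := by
          gcongr
      _ ≤ H ^ A * (C * H ^ k * q ^ n) := h1
      _ ≤ H ^ A * (H * H ^ k * q ^ n) := by gcongr
  have h5 : ((S.card : ℝ) * H ^ A) * (H ^ A * H * H ^ k) ≤ q ^ n * (H ^ A * H * H ^ k) := by
    calc ((S.card : ℝ) * H ^ A) * (H ^ A * H * H ^ k) =
        (S.card : ℝ) * (H ^ k * H ^ (2 * A + 1)) := by ring
      _ ≤ H ^ A * (H * H ^ k * q ^ n) := h4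
      _ = q ^ n * (H ^ A * H * H ^ k) := by ring
  exact le_of_mul_le_mul_right h5 (by positivity)

end Pool.Agent.H985.SN
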