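import Pool.Agent.H985.SN.Stm

/-!
# SN-LOW (helper738): a lower bound by Parseval
-/

set_option autoImplicit false

namespace Pool.Agent.H985.SN

open Polynomial Finset
open scoped Classical
open Pool.Agent.H985.Cor (Bx Tri)
open Pool.Agent.H694.Typ (pol pol_inj pol_coeff)

namespace Low738

/-- Parseval for a finite abelian group -/
theorem parseval {G : Type} [AddCommGroup G] [Fintype G] (b : G → ℝ) :
    ∑ ψ : AddChar G ℂ, ((‖∑ u, (b u : ℂ) * ψ u‖ ^ 2 : ℝ) : ℂ) =
      (Fintype.card G : ℂ) * ((∑ u, b u ^ 2 : ℝ) : ℂ) := by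
  have h1 : ∀ ψ : AddChar G ℂ, ((‖∑ u, (b u : ℂ) * ψ u‖ ^ 2 : ℝ) : ℂ) =
      ∑ u, ∑ v, (b u : ℂ) * (b v : ℂ) * ψ (u - v) := by
    intro ψ
    rw [Complex.ofReal_pow, ← Complex.mul_conj', map_sum, Finset.sum_mul_sum]
    refine Finset.sum_congr rfl fun u _ => Finset.sum_congr rfl fun v _ => ?_
    rw [map_mul, Complex.conj_ofReal, ← AddChar.map_neg_eq_conj, sub_eq_add_neg,
      AddChar.map_add_eq_mul]
    ring
  simp_rw [h1]
  rw [Finset.sum_comm]
  have h2 : ∀ u : G, ∑ ψ : AddChar G ℂ, ∑ v, (b u : ℂ) * (b v : ℂ) * ψ (u - v) =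
      (Fintype.card G : ℂ) * ((b u ^ 2 : ℝ) : ℂ) := by
    intro u
    rw [Finset.sum_comm]
    simp_rw [← Finset.mul_sum, AddChar.sum_apply_eq_ite]
    rw [Finset.sum_eq_single u]
    · rw [sub_self, if_pos rfl]
      push_cast
      ring
    · intro v _ hv
      rw [if_neg (sub_ne_zero.2 hv.symm), mul_zero]
    · intro h
      exact absurd (Finset.mem_univ u) h
  rw [Finset.sum_congr rfl fun u _ => h2 u, ← Finset.mul_sum]
  push_cast
  rfl

theorem exists_char {G : Type} [AddCommGroup G] [Fintype G] (b : G → ℝ) :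
    ∃ ψ : AddChar G ℂ, ∑ u, b u ^ 2 ≤ ‖∑ u, (b u : ℂ) * ψ u‖ ^ 2 := by
  by_contra hcon
  push Not at hcon
  have h := parseval b
  have h1 : ∑ ψ : AddChar G ℂ, ‖∑ u, (b u : ℂ) * ψ u‖ ^ 2 =
      (Fintype.card G : ℝ) * ∑ u, b u ^ 2 := by
    exact_mod_cast h
  have h2 : ∑ ψ : AddChar G ℂ, ‖∑ u, (b u : ℂ) * ψ u‖ ^ 2 <
      ∑ ψ : AddChar G ℂ, ∑ u, b u ^ 2 :=
    Finset.sum_lt_sum_of_nonempty Finset.univ_nonempty fun ψ _ => hcon ψ
  rw [h1, Finset.sum_const, Finset.card_univ, AddChar.card_eq, nsmul_eq_mul] at h2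
  exact lt_irrefl _ h2

end Low738

open Low738 in
theorem low : S_low := by
  intro K _ _ b m
  obtain ⟨ψ, hψ⟩ := exists_char (G := Fin m → K) fun c => b (pol c)
  let f : K[X] →+ (Fin m → K) :=
    { toFun := fun u i => u.coeff i
      map_zero' := by
        funext i
        exact coeff_zero _
      map_add' := fun u v => by
        funext i
        exact coeff_add _ _ _ }
  refine ⟨ψ.compAddMonoidHom f, ?_⟩
  have hf : ∀ c : Fin m → K, f (pol c) = c := fun c => funext fun i => pol_coeff c i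
  have hB : Bx K m = Finset.univ.image (pol : (Fin m → K) → K[X]) := rfl
  rw [hB, Finset.sum_image fun x _ y _ h => pol_inj h, Finset.sum_image fun x _ y _ h => pol_inj h]
  refine hψ.trans (le_of_eq ?_)
  congr 2
  refine Finset.sum_congr rfl fun c _ => ?_
  rw [AddChar.compAddMonoidHom_apply, hf]

end Pool.Agent.H985.SN
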